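import Mathlib

/-!
# Multilinear polynomials in signs, and the reduction of their expectations
-/

namespace HC38bc51.LP

/-- Multilinear polynomials: `leaf c` is the constant `c`, `node a b` is `a + x b` where `x` is the
next variable. -/
inductive MP where
  | leaf (c : ℤ)
  | node (a b : MP)

/-- Sum. -/
def add : MP → MP → MP
  | .leaf x, .leaf y => .leaf (x + y)
  | .node a b, .node c d => .node (add a c) (add b d)
  | _, _ => .leaf 0

/-- Difference. -/
def sub : MP → MP → MP
  | .leaf x, .leaf y => .leaf (x - y)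
  | .node a b, .node c d => .node (sub a c) (sub b d)
  | _, _ => .leaf 0

/-- The polynomial is a full tree of depth `n`. -/
def dep : ℕ → MP → Bool
  | 0, .leaf _ => true
  | n + 1, .node a b => dep n a && dep n b
  | _, _ => false

/-- All values at signs are nonnegative. -/
def nn : ℕ → MP → Bool
  | 0, .leaf c => decide (0 ≤ c)
  | n + 1, .node a b => nn n (add a b) && nn n (sub a b)
  | _, _ => false

/-- Evaluation. -/
def ev (τ : ℕ → ℝ) : MP → ℕ → ℝ
  | .leaf c, _ => c
  | .node a b, i => ev τ a (i + 1) + τ i * ev τ b (i + 1)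

theorem dep_zero {P : MP} (h : dep 0 P = true) : ∃ c, P = .leaf c := by
  cases P with
  | leaf c => exact ⟨c, rfl⟩
  | node a b => simp [dep] at h

theorem dep_succ {n : ℕ} {P : MP} (h : dep (n + 1) P = true) :
    ∃ a b, P = .node a b ∧ dep n a = true ∧ dep n b = true := by
  cases P with
  | leaf c => simp [dep] at h
  | node a b =>
    rw [dep, Bool.and_eq_true] at h
    exact ⟨a, b, rfl, h⟩

theorem dep_add : ∀ (n : ℕ) {a b : MP}, dep n a = true → dep n b = true → dep n (add a b) = true
  | 0, a, b, ha, hb => by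
    obtain ⟨x, rfl⟩ := dep_zero ha
    obtain ⟨y, rfl⟩ := dep_zero hb
    rfl
  | n + 1, a, b, ha, hb => by
    obtain ⟨a1, a2, rfl, h1, h2⟩ := dep_succ ha
    obtain ⟨b1, b2, rfl, h3, h4⟩ := dep_succ hb
    rw [add, dep, dep_add n h1 h3, dep_add n h2 h4]
    rfl

theorem dep_sub : ∀ (n : ℕ) {a b : MP}, dep n a = true → dep n b = true → dep n (sub a b) = true
  | 0, a, b, ha, hb => by
    obtain ⟨x, rfl⟩ := dep_zero ha
    obtain ⟨y, rfl⟩ := dep_zero hb
    rfl
  | n + 1, a, b, ha, hb => by
    obtain ⟨a1, a2, rfl, h1, h2⟩ := dep_succ ha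
    obtain ⟨b1, b2, rfl, h3, h4⟩ := dep_succ hb
    rw [sub, dep, dep_sub n h1 h3, dep_sub n h2 h4]
    rfl

theorem ev_add (τ : ℕ → ℝ) : ∀ (n : ℕ) {a b : MP}, dep n a = true → dep n b = true → ∀ i,
    ev τ (add a b) i = ev τ a i + ev τ b i
  | 0, a, b, ha, hb => by
    obtain ⟨x, rfl⟩ := dep_zero ha
    obtain ⟨y, rfl⟩ := dep_zero hb
    intro i
    simp only [add, ev]
    push_cast
    ring
  | n + 1, a, b, ha, hb => by
    obtain ⟨a1, a2, rfl, h1, h2⟩ := dep_succ ha
    obtain ⟨b1, b2, rfl, h3, h4⟩ := dep_succ hb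
    intro i
    simp only [add, ev]
    rw [ev_add τ n h1 h3, ev_add τ n h2 h4]
    ring

theorem ev_sub (τ : ℕ → ℝ) : ∀ (n : ℕ) {a b : MP}, dep n a = true → dep n b = true → ∀ i,
    ev τ (sub a b) i = ev τ a i - ev τ b i
  | 0, a, b, ha, hb => by
    obtain ⟨x, rfl⟩ := dep_zero ha
    obtain ⟨y, rfl⟩ := dep_zero hb
    intro i
    simp only [sub, ev]
    push_cast
    ring
  | n + 1, a, b, ha, hb => by
    obtain ⟨a1, a2, rfl, h1, h2⟩ := dep_succ ha
    obtain ⟨b1, b2, rfl, h3, h4⟩ := dep_succ hb
    intro i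
    simp only [sub, ev]
    rw [ev_sub τ n h1 h3, ev_sub τ n h2 h4]
    ring

/-- A polynomial which is nonnegative at signs is nonnegative on the cube. -/
theorem nn_spec {τ : ℕ → ℝ} (hτ : ∀ i, |τ i| ≤ 1) : ∀ (n : ℕ) {P : MP}, dep n P = true →
    nn n P = true → ∀ i, 0 ≤ ev τ P i
  | 0, P, hd, hn => by
    obtain ⟨c, rfl⟩ := dep_zero hd
    intro i
    rw [nn, decide_eq_true_eq] at hn
    simp only [ev]
    exact_mod_cast hn
  | n + 1, P, hd, hn => by
    obtain ⟨a, b, rfl, h1, h2⟩ := dep_succ hd
    intro i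
    rw [nn, Bool.and_eq_true] at hn
    have h3 := nn_spec hτ n (dep_add n h1 h2) hn.1 (i + 1)
    have h4 := nn_spec hτ n (dep_sub n h1 h2) hn.2 (i + 1)
    rw [ev_add τ n h1 h2] at h3
    rw [ev_sub τ n h1 h2] at h4
    simp only [ev]
    obtain ⟨h5, h6⟩ := abs_le.1 (hτ i)
    nlinarith [mul_nonneg (by linarith : 0 ≤ 1 + τ i) h3, mul_nonneg (by linarith : 0 ≤ 1 - τ i) h4]

/-- The expectation, if `M S` is the expectation of the product of the variables in `S`. -/
def lin (M : Finset ℤ → ℝ) : MP → ℕ → Finset ℤ → ℝ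
  | .leaf c, _, S => c * M S
  | .node a b, i, S => lin M a (i + 1) S + lin M b (i + 1) (insert (i : ℤ) S)

/-- All coefficients vanish. -/
def zero : MP → Bool
  | .leaf c => decide (c = 0)
  | .node a b => zero a && zero b

theorem zero_spec (M : Finset ℤ → ℝ) : ∀ (P : MP), zero P = true → ∀ i S, lin M P i S = 0
  | .leaf c, h, i, S => by
    rw [zero, decide_eq_true_eq] at h
    rw [lin, h, Int.cast_zero, zero_mul]
  | .node a b, h, i, S => by
    rw [zero, Bool.and_eq_true] at h
    rw [lin, zero_spec M a h.1, zero_spec M b h.2, add_zero]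

/-- A negative constant. -/
def neg : MP → Bool
  | .leaf c => decide (c < 0)
  | .node a b => neg a && zero b

theorem neg_spec (M : Finset ℤ → ℝ) (h0 : M ∅ = 1) : ∀ (P : MP), neg P = true → ∀ i,
    lin M P i ∅ < 0
  | .leaf c, h, i => by
    rw [neg, decide_eq_true_eq] at h
    rw [lin, h0, mul_one]
    exact_mod_cast h
  | .node a b, h, i => by
    rw [neg, Bool.and_eq_true] at h
    rw [lin, zero_spec M b h.2, add_zero]
    exact neg_spec M h0 a h.1 (i + 1)

/-- Add to the constant coefficient. -/
def addC : MP → ℤ → MP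
  | .leaf c, x => .leaf (c + x)
  | .node a b, x => .node (addC a x) b

theorem addC_spec (M : Finset ℤ → ℝ) : ∀ (P : MP) (x : ℤ) (i : ℕ) (S : Finset ℤ),
    lin M (addC P x) i S = lin M P i S + x * M S
  | .leaf c, x, i, S => by
    simp only [addC, lin]
    push_cast
    ring
  | .node a b, x, i, S => by
    simp only [addC, lin]
    rw [addC_spec M a]
    ring

/-- Add to a coefficient. -/
def addAt : List Bool → MP → ℤ → MP
  | [], P, x => addC P x
  | true :: p, .leaf c, x => .node (.leaf c) (addAt p (.leaf 0) x)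
  | false :: p, .leaf c, x => .node (addAt p (.leaf c) x) (.leaf 0)
  | true :: p, .node a b, x => .node a (addAt p b x)
  | false :: p, .node a b, x => .node (addAt p a x) b

/-- The set of a list of bits. -/
def pl : List Bool → ℕ → Finset ℤ → Finset ℤ
  | [], _, S => S
  | true :: p, i, S => pl p (i + 1) (insert (i : ℤ) S)
  | false :: p, i, S => pl p (i + 1) S

theorem addAt_spec (M : Finset ℤ → ℝ) : ∀ (p : List Bool) (P : MP) (x : ℤ) (i : ℕ) (S : Finset ℤ),
    lin M (addAt p P x) i S = lin M P i S + x * M (pl p i S)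
  | [], P, x, i, S => by
    simp only [addAt, pl]
    exact addC_spec M P x i S
  | true :: p, .leaf c, x, i, S => by
    simp only [addAt, lin, pl]
    rw [addAt_spec M p]
    simp only [lin]
    push_cast
    ring
  | false :: p, .leaf c, x, i, S => by
    simp only [addAt, lin, pl]
    rw [addAt_spec M p]
    simp only [lin]
    push_cast
    ring
  | true :: p, .node a b, x, i, S => by
    simp only [addAt, lin, pl]
    rw [addAt_spec M p]
    ring
  | false :: p, .node a b, x, i, S => by
    simp only [addAt, lin, pl]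
    rw [addAt_spec M p]
    ring

/-- The set of the point `a` and the further points with the gaps `e + 1`. -/
def ps : ℤ → List ℕ → Finset ℤ
  | a, [] => {a}
  | a, e :: es => insert a (ps (a + e + 1) es)

/-- The bits of a list of gaps. -/
def bits : List ℕ → List Bool
  | [] => []
  | e :: es => List.replicate e false ++ true :: bits es

theorem pl_replicate (p : List Bool) : ∀ (e i : ℕ) (S : Finset ℤ),
    pl (List.replicate e false ++ p) i S = pl p (i + e) S
  | 0, i, S => by simp
  | e + 1, i, S => by
    rw [List.replicate_succ, List.cons_append, pl, pl_replicate p e]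
    congr 1
    omega

theorem pl_bits : ∀ (es : List ℕ) (i : ℕ) (S : Finset ℤ),
    pl (true :: bits es) i S = S ∪ ps i es
  | [], i, S => by
    simp only [bits, pl, ps]
    rw [Finset.insert_eq, Finset.union_comm]
  | e :: es, i, S => by
    rw [bits, pl, pl_replicate, pl_bits es, ps]
    rw [Finset.insert_union, Finset.union_insert]
    congr 3
    push_cast
    ring

theorem mem_ps : ∀ (es : List ℕ) (a b : ℤ), b ∈ ps a es → a ≤ b
  | [], a, b, h => by
    rw [ps, Finset.mem_singleton] at h
    exact h.ge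
  | e :: es, a, b, h => by
    rw [ps, Finset.mem_insert] at h
    rcases h with h | h
    · exact h.ge
    · have := mem_ps es _ b h
      have h2 : (0 : ℤ) ≤ e := by positivity
      linarith

/-- The last point. -/
def lst : ℤ → List ℕ → ℤ
  | a, [] => a
  | a, e :: es => lst (a + e + 1) es

theorem mem_ps_le : ∀ (es : List ℕ) (a b : ℤ), b ∈ ps a es → b ≤ lst a es
  | [], a, b, h => by
    rw [ps, Finset.mem_singleton] at h
    exact h.le
  | e :: es, a, b, h => by
    rw [ps, Finset.mem_insert] at h
    rw [lst]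
    rcases h with h | h
    · have h1 : a + e + 1 ∈ ps (a + e + 1) es := by
        cases es with
        | nil => simp [ps]
        | cons x xs => simp [ps]
      have h2 := mem_ps_le es _ _ h1
      have h3 : (0 : ℤ) ≤ e := by positivity
      linarith
    · exact mem_ps_le es _ b h

theorem ps_append : ∀ (es : List ℕ) (a : ℤ) (e : ℕ) (fs : List ℕ),
    ps a (es ++ e :: fs) = ps a es ∪ ps (lst a es + e + 1) fs
  | [], a, e, fs => by
    rw [List.nil_append, ps, ps, lst]
    rfl
  | x :: es, a, e, fs => by
    rw [List.cons_append, ps, ps_append es, ps, lst, Finset.insert_union]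

theorem ps_shift : ∀ (es : List ℕ) (a c : ℤ), ps (a + c) es = (ps a es).image (· + c)
  | [], a, c => by simp [ps]
  | e :: es, a, c => by
    rw [ps, ps, Finset.image_insert, ← ps_shift es]
    congr 2
    ring

theorem card_ps : ∀ (es : List ℕ) (a : ℤ), (ps a es).card = es.length + 1
  | [], a => by simp [ps]
  | e :: es, a => by
    rw [ps, Finset.card_insert_of_notMem, card_ps es, List.length_cons]
    intro h
    have := mem_ps es _ _ h
    have h2 : (0 : ℤ) ≤ e := by positivity
    linarith

end HC38bc51.LP
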