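import Mathlib
import Pool.Agent.Work.MP_38bc51_pr.LP.Poly

/-!
# Reduction of expectations to canonical forms
-/

namespace HC38bc51.LP

/-- Split a list of gaps at the gaps of length at least `m`; `acc` is the reversed current part. -/
def comps (m : ℕ) : List ℕ → List ℕ → List (List ℕ)
  | acc, [] => [acc.reverse]
  | acc, e :: es => if m ≤ e + 1 then acc.reverse :: comps m [] es else comps m (e :: acc) es

/-- Remove at most `J` pairs of neighbours. -/
def strip (p q : ℤ) : ℕ → ℤ → List (List ℕ) → ℤ × List (List ℕ)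
  | J, w, [] => (w * q ^ J, [])
  | 0, w, c :: cs => ((strip p q 0 w cs).1, c :: (strip p q 0 w cs).2)
  | J + 1, w, c :: cs =>
    if c = [0] then strip p q J (w * p) cs
    else ((strip p q (J + 1) w cs).1, c :: (strip p q (J + 1) w cs).2)

/-- A number for a list. -/
def code : List ℕ → ℕ
  | [] => 1
  | e :: es => e + 16 * code es

/-- Insertion. -/
def ins (c : List ℕ) : List (List ℕ) → List (List ℕ)
  | [] => [c]
  | d :: ds => if code c ≤ code d then c :: d :: ds else d :: ins c ds

/-- Sorting. -/
def srt : List (List ℕ) → List (List ℕ)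
  | [] => []
  | c :: cs => ins c (srt cs)

/-- Join with gaps of length `m`. -/
def join (m : ℕ) : List ℕ → List (List ℕ) → List ℕ
  | c, [] => c
  | c, d :: ds => c ++ (m - 1) :: join m d ds

/-- The bits of the canonical form. -/
def canon (m : ℕ) : List (List ℕ) → List Bool
  | [] => []
  | c :: cs => true :: bits (join m c cs)

/-- One part has an odd number of points. -/
def oddc (cs : List (List ℕ)) : Bool := cs.any fun c => c.length % 2 == 0

/-- Sum of polynomials of different shapes. -/
def addT : MP → MP → MP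
  | .leaf x, P => addC P x
  | .node a b, .leaf y => .node (addC a y) b
  | .node a b, .node c d => .node (addT a c) (addT b d)

theorem addT_spec (M : Finset ℤ → ℝ) : ∀ (P Q : MP) (i : ℕ) (S : Finset ℤ),
    lin M (addT P Q) i S = lin M P i S + lin M Q i S
  | .leaf x, P, i, S => by
    simp only [addT, lin]
    rw [addC_spec]
    ring
  | .node a b, .leaf y, i, S => by
    simp only [addT, lin]
    rw [addC_spec]
    ring
  | .node a b, .node c d, i, S => by
    simp only [addT, lin]
    rw [addT_spec M a c, addT_spec M b d]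
    ring

/-- The contribution of one coefficient. -/
def leafc (m J : ℕ) (p q : ℤ) (c : ℤ) (es : List ℕ) : MP :=
  let cs := comps m [] es
  if oddc cs then .leaf 0
  else
    let r := strip p q J c cs
    addAt (canon m (srt r.2)) (.leaf 0) r.1

/-- The state of the traversal: the reversed list of gaps and the distance to the last point. -/
def go (m J : ℕ) (p q : ℤ) : MP → Option (List ℕ × ℕ) → MP
  | .leaf c, none => .leaf (c * q ^ J)
  | .leaf c, some (gs, _) => if c = 0 then .leaf 0 else leafc m J p q c gs.reverse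
  | .node a b, none => addT (go m J p q a none) (go m J p q b (some ([], 0)))
  | .node a b, some (gs, d) =>
    addT (go m J p q a (some (gs, d + 1))) (go m J p q b (some (d :: gs, 0)))

/-- The rules of the expectations. -/
structure Rule (m : ℕ) (p q : ℤ) (M : Finset ℤ → ℝ) : Prop where
  empty : M ∅ = 1
  odd : ∀ S : Finset ℤ, Odd S.card → M S = 0
  mul : ∀ S T : Finset ℤ, (∀ a ∈ S, ∀ b ∈ T, (m : ℤ) ≤ |a - b|) → M (S ∪ T) = M S * M T
  shift : ∀ (S : Finset ℤ) (c : ℤ), M (S.image (· + c)) = M S
  pair : (q : ℝ) * M {0, 1} = p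
  pos : 1 ≤ m

variable {m : ℕ} {p q : ℤ} {M : Finset ℤ → ℝ}

theorem Rule.ps_zero (h : Rule m p q M) (es : List ℕ) (a : ℤ) : M (ps a es) = M (ps 0 es) := by
  have := ps_shift es 0 a
  rw [zero_add] at this
  rw [this, h.shift]

/-- Splitting at a large gap. -/
theorem Rule.split (h : Rule m p q M) (es fs : List ℕ) (e : ℕ) (he : m ≤ e + 1) :
    M (ps 0 (es ++ e :: fs)) = M (ps 0 es) * M (ps 0 fs) := by
  rw [ps_append, h.mul, h.ps_zero fs]
  intro a ha b hb
  have h1 := mem_ps_le es 0 a ha
  have h2 := mem_ps fs _ b hb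
  have h3 : (m : ℤ) ≤ e + 1 := by exact_mod_cast he
  rw [abs_sub_comm]
  exact le_trans (by linarith) (le_abs_self _)

theorem Rule.comps (h : Rule m p q M) : ∀ (es acc : List ℕ),
    M (ps 0 (acc.reverse ++ es)) = ((LP.comps m acc es).map fun c => M (ps 0 c)).prod
  | [], acc => by
    simp [LP.comps]
  | e :: es, acc => by
    rw [LP.comps]
    split_ifs with h1
    · rw [h.split _ _ _ h1, List.map_cons, List.prod_cons, ← Rule.comps h es []]
      rfl
    · rw [← Rule.comps h es (e :: acc), List.reverse_cons, List.append_assoc]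
      rfl

theorem Rule.strip (h : Rule m p q M) : ∀ (cs : List (List ℕ)) (J : ℕ) (w : ℤ),
    ((LP.strip p q J w cs).1 : ℝ) * ((LP.strip p q J w cs).2.map fun c => M (ps 0 c)).prod =
      w * (q : ℝ) ^ J * (cs.map fun c => M (ps 0 c)).prod
  | [], J, w => by
    cases J <;> simp [LP.strip]
  | c :: cs, 0, w => by
    have ih := Rule.strip h cs 0 w
    rw [LP.strip]
    simp only [List.map_cons, List.prod_cons]
    linear_combination M (ps 0 c) * ih
  | c :: cs, J + 1, w => by
    rw [LP.strip]
    split_ifs with h1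
    · have ih := Rule.strip h cs J (w * p)
      rw [ih, h1, List.map_cons, List.prod_cons]
      have h2 : M (ps 0 [0]) = M {0, 1} := by
        simp [ps]
      rw [h2]
      push_cast
      rw [← h.pair]
      ring
    · have ih := Rule.strip h cs (J + 1) w
      simp only [List.map_cons, List.prod_cons]
      linear_combination M (ps 0 c) * ih

theorem ins_perm (c : List ℕ) : ∀ ds : List (List ℕ), List.Perm (ins c ds) (c :: ds)
  | [] => List.Perm.refl _
  | d :: ds => by
    rw [ins]
    split_ifs
    · exact List.Perm.refl _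
    · exact (List.Perm.cons d (ins_perm c ds)).trans (List.Perm.swap c d ds)

theorem srt_perm : ∀ cs : List (List ℕ), List.Perm (srt cs) cs
  | [] => List.Perm.refl _
  | c :: cs => (ins_perm c (srt cs)).trans (List.Perm.cons c (srt_perm cs))

theorem Rule.join (h : Rule m p q M) : ∀ (cs : List (List ℕ)) (c : List ℕ),
    M (ps 0 (LP.join m c cs)) = ((c :: cs).map fun c => M (ps 0 c)).prod
  | [], c => by simp [LP.join]
  | d :: ds, c => by
    have hp := h.pos
    rw [LP.join, h.split _ _ _ (by omega), Rule.join h ds d]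
    simp only [List.map_cons, List.prod_cons]

theorem Rule.canon (h : Rule m p q M) (cs : List (List ℕ)) :
    M (pl (LP.canon m cs) 0 ∅) = (cs.map fun c => M (ps 0 c)).prod := by
  cases cs with
  | nil =>
    rw [LP.canon, pl, h.empty]
    rfl
  | cons c cs =>
    rw [LP.canon, pl_bits, Finset.empty_union, Nat.cast_zero, h.join]

theorem Rule.leafc (h : Rule m p q M) (J : ℕ) (c : ℤ) (es : List ℕ) :
    lin M (LP.leafc m J p q c es) 0 ∅ = (q : ℝ) ^ J * (c * M (ps 0 es)) := by
  have h1 := h.comps es []
  rw [List.reverse_nil, List.nil_append] at h1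
  unfold LP.leafc
  simp only
  split_ifs with h2
  · have h3 : M (ps 0 es) = 0 := by
      rw [h1]
      unfold oddc at h2
      rw [List.any_eq_true] at h2
      obtain ⟨c, hc, h3⟩ := h2
      refine List.prod_eq_zero (List.mem_map.2 ⟨c, hc, h.odd _ ?_⟩)
      rw [card_ps]
      rw [beq_iff_eq] at h3
      exact Even.add_one (Nat.even_iff.2 h3)
    rw [h3, lin]
    simp
  · rw [addAt_spec, h.canon, ((srt_perm _).map _).prod_eq, h.strip, ← h1, lin]
    simp only [Int.cast_zero, zero_mul, zero_add]
    ring

/-- The state describes the set. -/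
def Rel : Option (List ℕ × ℕ) → ℕ → Finset ℤ → Prop
  | none, _, S => S = ∅
  | some (gs, d), i, S => ∃ a : ℤ, S = ps a gs.reverse ∧ lst a gs.reverse + d + 1 = i

theorem lst_append : ∀ (es : List ℕ) (a : ℤ) (e : ℕ), lst a (es ++ [e]) = lst a es + e + 1
  | [], a, e => rfl
  | x :: es, a, e => by rw [List.cons_append, lst, lst_append es, lst]

theorem Rule.go (h : Rule m p q M) (J : ℕ) : ∀ (P : MP) (st : Option (List ℕ × ℕ))
    (i : ℕ) (S : Finset ℤ), Rel st i S →
    lin M (LP.go m J p q P st) 0 ∅ = (q : ℝ) ^ J * lin M P i S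
  | .leaf c, none, i, S, hR => by
    have hS : S = ∅ := hR
    rw [LP.go, lin, lin, hS]
    push_cast
    ring
  | .leaf c, some (gs, d), i, S, hR => by
    obtain ⟨a, rfl, h2⟩ := hR
    rw [LP.go]
    split_ifs with h1
    · rw [lin, lin, h1]
      simp
    · rw [h.leafc, lin, h.ps_zero _ a]
  | .node a b, none, i, S, hR => by
    have hS : S = ∅ := hR
    rw [LP.go, addT_spec, Rule.go h J b (some ([], 0)) (i + 1) (insert (i : ℤ) S) ?_,
      Rule.go h J a none (i + 1) S hR, lin]
    · ring
    · refine ⟨i, ?_, ?_⟩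
      · rw [hS]
        rfl
      · show (i : ℤ) + (0 : ℕ) + 1 = ((i + 1 : ℕ) : ℤ)
        push_cast
        ring
  | .node a b, some (gs, d), i, S, hR => by
    obtain ⟨x, hS, h2⟩ := hR
    rw [LP.go, addT_spec, Rule.go h J b (some (d :: gs, 0)) (i + 1) (insert (i : ℤ) S) ?_,
      Rule.go h J a (some (gs, d + 1)) (i + 1) S ?_, lin]
    · ring
    · refine ⟨x, hS, ?_⟩
      push_cast
      linarith
    · refine ⟨x, ?_, ?_⟩
      · rw [hS, List.reverse_cons, ps_append, h2]
        rw [ps, Finset.union_comm]
        rfl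
      · rw [List.reverse_cons, lst_append, h2]
        push_cast
        ring

/-- **The criterion.** -/
theorem Rule.lin_neg (h : Rule m p q M) (hq : 0 < q) (J : ℕ) {P : MP}
    (hP : neg (LP.go m J p q P none) = true) : lin M P 0 ∅ < 0 := by
  have h1 := neg_spec M h.empty _ hP 0
  rw [h.go J P none 0 ∅ rfl] at h1
  have h2 : (0 : ℝ) < (q : ℝ) ^ J := by
    have : (0 : ℝ) < q := by exact_mod_cast hq
    positivity
  by_contra h3
  push Not at h3
  have := mul_nonneg h2.le h3
  linarith

end HC38bc51.LP
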