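import Mathlib
import Pool.Agent.Work.MP_38bc51_pr.LP.Red

/-!
# Polynomials from one number
-/

namespace HC38bc51.LP

/-- The number of coefficients of degree of the parity `b` (`true` for even). -/
def cnt : ℕ → Bool → ℕ
  | 0, true => 1
  | 0, false => 0
  | n + 1, _ => 2 ^ n

/-- The polynomial in `n` variables whose coefficients of the parity `b` are the digits of `x` in
the base `2 ^ B`, lowered by `2 ^ (B - 1)`; the others vanish. -/
def bld (B : ℕ) : ℕ → Bool → ℕ → MP
  | 0, true, x => .leaf ((x : ℤ) - (2 ^ (B - 1) : ℕ))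
  | 0, false, _ => .leaf 0
  | n + 1, b, x =>
    .node (bld B n b (x % 2 ^ (B * cnt n b))) (bld B n (!b) (x / 2 ^ (B * cnt n b)))

theorem dep_bld (B : ℕ) : ∀ (n : ℕ) (b : Bool) (x : ℕ), dep n (bld B n b x) = true
  | 0, true, x => rfl
  | 0, false, x => rfl
  | n + 1, b, x => by
    rw [bld, dep, dep_bld B n, dep_bld B n]
    rfl

end HC38bc51.LP
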