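import Mathlib
import Pool.Agent.Work.MP_38bc51_pr.HC.Main
import Pool.Agent.Work.MP_38bc51_pr.LP.Build

/-!
# The criterion for sign laws
-/

namespace HC38bc51.LP

open MeasureTheory ProbabilityTheory HC38bc51.HC

variable {m : ℕ} {Q : Measure (ℤ → Bool)}

/-- The correlations of the law thinned by the factor `t`. -/
noncomputable def thin (Q : Measure (ℤ → Bool)) (t : ℝ) (S : Finset ℤ) : ℝ := t ^ S.card * chi Q S

theorem rule (hQ : SignLaw m Q) (hm : 1 ≤ m) {p q : ℤ} {t : ℝ}
    (ht : (q : ℝ) * (t ^ 2 * chi Q {0, 1}) = p) : Rule m p q (thin Q t) := by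
  have := hQ.prob
  refine ⟨?_, ?_, ?_, ?_, ?_, hm⟩
  · simp [thin, chi, XX]
  · intro S hS
    rw [thin, hQ.chi_odd hS, mul_zero]
  · intro S T h
    have hd : Disjoint S T := by
      rw [Finset.disjoint_left]
      intro a ha hb
      have := h a ha a hb
      simp at this
      omega
    rw [thin, thin, thin, Finset.card_union_of_disjoint hd, hQ.chi_mul h hm, pow_add]
    ring
  · intro S c
    rw [thin, thin, hQ.chi_shift, Finset.card_image_of_injective _ (add_left_injective c)]
  · rw [thin]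
    simpa using ht

theorem expect [IsProbabilityMeasure Q] (t : ℝ) : ∀ (P : MP) (i : ℕ) (S : Finset ℤ),
    (∀ a ∈ S, a < (i : ℤ)) →
    Integrable (fun s => XX S s * ev (fun j => t * xx j s) P i) Q ∧
      t ^ S.card * ∫ s, XX S s * ev (fun j => t * xx j s) P i ∂Q = lin (thin Q t) P i S
  | .leaf c, i, S, hS => by
    simp only [ev, lin]
    refine ⟨(integrable_XX S).mul_const _, ?_⟩
    rw [integral_mul_const, thin, chi]
    ring
  | .node a b, i, S, hS => by
    have hi : (i : ℤ) ∉ S := fun h => lt_irrefl _ (hS _ h)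
    obtain ⟨a1, a2⟩ := expect t a (i + 1) S (fun x hx => by
      have := hS x hx
      push_cast
      linarith)
    obtain ⟨b1, b2⟩ := expect t b (i + 1) (insert (i : ℤ) S) (fun x hx => by
      rw [Finset.mem_insert] at hx
      rcases hx with rfl | hx
      · push_cast
        linarith
      · have := hS x hx
        push_cast
        linarith)
    have e : (fun s => XX S s * ev (fun j => t * xx j s) (.node a b) i) = fun s =>
        XX S s * ev (fun j => t * xx j s) a (i + 1) +
          t * (XX (insert (i : ℤ) S) s * ev (fun j => t * xx j s) b (i + 1)) := by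
      funext s
      rw [ev]
      unfold XX
      rw [Finset.prod_insert hi]
      ring
    rw [e]
    refine ⟨a1.add (b1.const_mul t), ?_⟩
    rw [integral_add a1 (b1.const_mul t), integral_const_mul, lin, ← a2, ← b2,
      Finset.card_insert_of_notMem hi, pow_succ]
    ring

/-- **Upper bounds for the correlation of neighbours from certificates.** -/
theorem rho_lt (hQ : SignLaw m Q) (hm : 1 ≤ m) {p q : ℤ} (hp : 0 < p) (hq : 0 < q)
    {P : MP} (hn : ∀ τ : ℕ → ℝ, (∀ i, |τ i| ≤ 1) → 0 ≤ ev τ P 0)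
    (hN : ∀ M : Finset ℤ → ℝ, Rule m p q M → lin M P 0 ∅ < 0) :
    chi Q {0, 1} < p / q := by
  have := hQ.prob
  by_contra hcon
  push Not at hcon
  have hp' : (0 : ℝ) < p := by exact_mod_cast hp
  have hq' : (0 : ℝ) < q := by exact_mod_cast hq
  have hρ : 0 < chi Q {0, 1} := lt_of_lt_of_le (by positivity) hcon
  set t : ℝ := √((p / q) / chi Q {0, 1}) with ht
  have ht2 : t ^ 2 = (p / q) / chi Q {0, 1} := Real.sq_sqrt (by positivity)
  have ht0 : 0 ≤ t := Real.sqrt_nonneg _
  have ht1 : t ≤ 1 := by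
    have : t ^ 2 ≤ 1 := by
      rw [ht2, div_le_one hρ]
      exact hcon
    nlinarith
  have hr : Rule m p q (thin Q t) := rule hQ hm (by
    rw [ht2]
    field_simp)
  have h1 := hN _ hr
  obtain ⟨-, h2⟩ := expect (Q := Q) t P 0 ∅ (by simp)
  rw [← h2, Finset.card_empty, pow_zero, one_mul] at h1
  refine absurd h1 (not_lt.2 (integral_nonneg fun s => ?_))
  have h3 : XX ∅ s = 1 := by simp [XX]
  have h4 := hn (fun j : ℕ => t * xx j s) (fun j => by
    rcases xx_cases j s with h | h
    · rw [h, mul_one, abs_of_nonneg ht0]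
      exact ht1
    · rw [h, mul_neg, mul_one, abs_neg, abs_of_nonneg ht0]
      exact ht1)
  show 0 ≤ XX ∅ s * ev (fun j : ℕ => t * xx j s) P 0
  rw [h3, one_mul]
  exact h4

/-- Lower bounds for the probability of a sign change. -/
theorem chg_gt (hQ : SignLaw m Q) (hm : 1 ≤ m) {p q : ℤ} (hp : 0 < p) (hq : 0 < q)
    {P : MP} (hn : ∀ τ : ℕ → ℝ, (∀ i, |τ i| ≤ 1) → 0 ≤ ev τ P 0)
    (hN : ∀ M : Finset ℤ → ℝ, Rule m p q M → lin M P 0 ∅ < 0) :
    (1 - p / q) / 2 < chg Q := by
  have h1 := rho_lt hQ hm hp hq hn hN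
  rw [hQ.chi_chg] at h1
  linarith

end HC38bc51.LP
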