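import Mathlib
import Pool.Agent.Work.MP_38bc51_pr.LP.Law
import Pool.Agent.Work.MP_38bc51_pr.LP.T515

/-!
# The limit of `2 k (1 / 2 - p_k)` and sign changes
-/

namespace HC38bc51.LP

open MeasureTheory ProbabilityTheory Filter HC38bc51.HC

/-- Sign laws of every range bound the limit from above. -/
theorem limit_le {L : ℝ}
    (hL : Tendsto (fun k : ℕ => 2 * (k : ℝ) * (1 / 2 - pcrit k)) atTop (nhds L))
    {m : ℕ} (hm : 1 ≤ m) {Q : Measure (ℤ → Bool)} (hQ : SignLaw m Q) :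
    L ≤ ((m : ℝ) + 1) * chg Q := by
  have hc : 0 ≤ chg Q := measureReal_nonneg
  have h1 : Tendsto (fun h : ℕ => 2 * ((m * h : ℕ) : ℝ) * (1 / 2 - pcrit (m * h))) atTop
      (nhds L) := by
    have h2 : Tendsto (fun h : ℕ => m * h) atTop atTop :=
      tendsto_id.const_mul_atTop' (by omega)
    exact hL.comp h2
  refine le_of_tendsto h1 ?_
  filter_upwards [eventually_ge_atTop 1] with h hh
  obtain ⟨Q', hQ', e⟩ := renorm hm hh hQ
  have h2 := hard hQ'
  rw [e] at h2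
  have h3 : (0 : ℝ) ≤ (m * h : ℕ) := Nat.cast_nonneg _
  have h4 : 1 / 2 - pcrit (m * h) ≤ ((m : ℝ) + 1) / (m * h + 1) * chg Q / 2 := by linarith
  refine (mul_le_mul_of_nonneg_left h4 (by positivity)).trans ?_
  have h5 : 2 * ((m * h : ℕ) : ℝ) * (((m : ℝ) + 1) / (m * h + 1) * chg Q / 2) =
      ((m : ℝ) * h / (m * h + 1)) * (((m : ℝ) + 1) * chg Q) := by
    push_cast
    ring
  rw [h5]
  have h6 : (m : ℝ) * h / (m * h + 1) ≤ 1 := by
    rw [div_le_one (by positivity)]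
    linarith
  have h7 : 0 ≤ ((m : ℝ) + 1) * chg Q := by positivity
  nlinarith

/-- The constant is larger than two thirds. -/
theorem chg_five {Q : Measure (ℤ → Bool)} (hQ : SignLaw 5 Q) : 2 / 15 < chg Q := by
  have h1 := chg_gt_cert hQ (by norm_num) (p := 11) (q := 15) (by norm_num) (by norm_num) 3 40 14
    c515Data c515_nn c515_neg
  norm_num at h1 ⊢
  linarith

theorem main : ∃ L : ℝ,
    Tendsto (fun k : ℕ => 2 * (k : ℝ) * (1 / 2 - pcrit k)) atTop (nhds L) ∧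
    (∀ m : ℕ, 1 ≤ m → (∃ Q : Measure (ℤ → Bool), SignLaw m Q ∧ (m : ℝ) * chg Q ≤ L) ∧
      ∀ Q : Measure (ℤ → Bool), SignLaw m Q → L ≤ ((m : ℝ) + 1) * chg Q) ∧
    2 / 3 < L ∧ ∀ᶠ k : ℕ in atTop, pcrit k < 1 / 2 - 1 / (3 * (k : ℝ)) := by
  obtain ⟨L, hL, -, hm⟩ := limit
  have hlt : 2 / 3 < L := by
    obtain ⟨Q, hQ, h1⟩ := hm 5 (by norm_num)
    have h2 := chg_five hQ
    push_cast at h1
    linarith
  refine ⟨L, hL, fun m h1 => ⟨hm m h1, fun Q hQ => limit_le hL h1 hQ⟩, hlt, ?_⟩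
  filter_upwards [hL.eventually (lt_mem_nhds hlt), eventually_ge_atTop 1] with k h1 hk
  have hk0 : (0 : ℝ) < k := by exact_mod_cast hk
  have h2 : 1 / (3 * (k : ℝ)) < 1 / 2 - pcrit k := by
    rw [div_lt_iff₀ (by positivity)]
    linarith
  linarith

end HC38bc51.LP
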