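import Mathlib
import Pool.Agent.Work.MP_38bc51_pr.LP.H219
import Pool.Agent.Work.MP_38bc51_pr.LP.H315
import Pool.Agent.Work.MP_38bc51_pr.LP.H419
import Pool.Agent.Work.MP_38bc51_pr.LP.H519
import Pool.Agent.Work.MP_38bc51_pr.LP.H619

/-!
# Upper bounds for `p_2, ..., p_6`
-/

namespace HC38bc51.LP

theorem small (k : ℕ) (h2 : 2 ≤ k) (h6 : k ≤ 6) :
    pcrit k ≤ 1 / 2 - 3 / (9 * (k : ℝ) + 4) := by
  interval_cases k
  · refine h219_le.trans ?_
    norm_num
  · refine h315_le.trans ?_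
    norm_num
  · refine h419_le.trans ?_
    norm_num
  · refine h519_le.trans ?_
    norm_num
  · refine h619_le.trans ?_
    norm_num

end HC38bc51.LP
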