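import Mathlib
import Pool.Agent.Work.MP_38bc51_pr.LP.Red

/-!
# Canonical monomials and the state of the traversal
-/

namespace HC38bc51.LP

/-- Lexicographic order. -/
def lexle : List ℕ → List ℕ → Bool
  | [], _ => true
  | _ :: _, [] => false
  | x :: xs, y :: ys => cond (Nat.ble x y) (cond (Nat.ble y x) (lexle xs ys) true) false

/-- Insertion. -/
def insF (c : List ℕ) : List (List ℕ) → List (List ℕ)
  | [] => [c]
  | d :: ds => cond (lexle c d) (c :: d :: ds) (d :: insF c ds)

/-- Reversal. -/
def rvl : List ℕ → List ℕ → List ℕ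
  | [], acc => acc
  | x :: xs, acc => rvl xs (x :: acc)

/-- Absent variables in front. -/
def zerosT : ℕ → MP → MP
  | 0, P => P
  | e + 1, P => .node (zerosT e P) (.leaf 0)

/-- The variables with given gaps in front. -/
def gp : List ℕ → MP → MP
  | [], P => P
  | e :: es, P => zerosT e (.node (.leaf 0) (gp es P))

/-- The variables of several parts in front. -/
def cp (m : ℕ) : List (List ℕ) → MP → MP
  | [], P => P
  | c :: cs, P => zerosT (m - 1) (.node (.leaf 0) (gp c (cp m cs P)))

/-- The canonical monomial. -/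
def top (m : ℕ) : List (List ℕ) → MP → MP
  | [], P => P
  | c :: cs, P => .node (.leaf 0) (gp c (cp m cs P))

theorem insF_perm (c : List ℕ) : ∀ ds : List (List ℕ), List.Perm (insF c ds) (c :: ds)
  | [] => List.Perm.refl _
  | d :: ds => by
    rw [insF]
    cases lexle c d
    · exact (List.Perm.cons d (insF_perm c ds)).trans (List.Perm.swap c d ds)
    · exact List.Perm.refl _

theorem rvl_eq : ∀ (l acc : List ℕ), rvl l acc = l.reverse ++ acc
  | [], acc => rfl
  | x :: xs, acc => by rw [rvl, rvl_eq xs, List.reverse_cons, List.append_assoc]; rfl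

theorem lin_zerosT (M : Finset ℤ → ℝ) : ∀ (e : ℕ) (P : MP) (i : ℕ) (S : Finset ℤ),
    lin M (zerosT e P) i S = lin M P (i + e) S
  | 0, P, i, S => rfl
  | e + 1, P, i, S => by
    rw [zerosT, lin, lin_zerosT M e, lin, Int.cast_zero, zero_mul, add_zero]
    congr 1
    omega

theorem lin_gp (M : Finset ℤ → ℝ) (x : ℤ) : ∀ (es : List ℕ) (i : ℕ) (S : Finset ℤ),
    lin M (gp es (.leaf x)) i S = x * M (pl (bits es) i S)
  | [], i, S => rfl
  | e :: es, i, S => by
    rw [gp, lin_zerosT, lin, lin, Int.cast_zero, zero_mul, zero_add, lin_gp M x es, bits,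
      pl_replicate, pl]

theorem gp_append (P : MP) : ∀ (es fs : List ℕ), gp (es ++ fs) P = gp es (gp fs P)
  | [], fs => rfl
  | e :: es, fs => by rw [List.cons_append, gp, gp_append P es, gp]

theorem gp_join (m : ℕ) (P : MP) : ∀ (cs : List (List ℕ)) (c : List ℕ),
    gp c (cp m cs P) = gp (join m c cs) P
  | [], c => rfl
  | d :: ds, c => by
    rw [cp, join, gp_append, gp, gp_join m P ds d]

theorem lin_top (M : Finset ℤ → ℝ) (m : ℕ) (x : ℤ) (cs : List (List ℕ)) :
    lin M (top m cs (.leaf x)) 0 ∅ = x * M (pl (canon m cs) 0 ∅) := by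
  cases cs with
  | nil => rfl
  | cons c cs =>
    rw [top, lin, lin, Int.cast_zero, zero_mul, zero_add, gp_join, lin_gp, canon, pl]

/-- The coefficient is zero. -/
def isz : ℤ → Bool
  | .ofNat x => Nat.beq x 0
  | .negSucc _ => false

theorem isz_spec : ∀ {c : ℤ}, isz c = true → c = 0
  | .ofNat x, h => by
    have : x = 0 := Nat.eq_of_beq_eq_true h
    rw [this]
    rfl
  | .negSucc x, h => by simp [isz] at h

/-- The constant term. -/
def cst : MP → ℤ
  | .leaf c => c
  | .node a _ => cst a

/-- The sum, over the positions of the first point, of what follows. -/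
def rst : MP → MP
  | .leaf _ => .leaf 0
  | .node a b => addT b (rst a)

/-- The depth. -/
def dpt : MP → ℕ
  | .leaf _ => 0
  | .node a b => max (dpt a) (dpt b) + 1

theorem dpt_addC : ∀ (P : MP) (x : ℤ), dpt (addC P x) = dpt P
  | .leaf c, x => rfl
  | .node a b, x => by rw [addC, dpt, dpt, dpt_addC a]

theorem dpt_addT : ∀ (P Q : MP), dpt (addT P Q) ≤ max (dpt P) (dpt Q)
  | .leaf x, P => by rw [addT, dpt_addC]; exact le_max_right _ _
  | .node a b, .leaf y => by
    rw [addT, dpt, dpt, dpt_addC]
    exact le_max_left _ _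
  | .node a b, .node c d => by
    rw [addT, dpt, dpt, dpt]
    have h1 := dpt_addT a c
    have h2 := dpt_addT b d
    omega

theorem dpt_rst : ∀ (P : MP) (n : ℕ), dpt P ≤ n + 1 → dpt (rst P) ≤ n
  | .leaf x, n, h => Nat.zero_le _
  | .node a b, n, h => by
    rw [dpt] at h
    rw [rst]
    have h1 := dpt_addT b (rst a)
    have h2 : dpt (rst a) ≤ n := by
      rcases n with _ | n
      · have h3 : dpt a = 0 := by omega
        cases a with
        | leaf c => exact Nat.zero_le _
        | node c d => rw [dpt] at h3; omega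
      · exact dpt_rst a (n + 1) (by omega)
    omega

/-- The state describes the set. -/
structure St (m : ℕ) (q : ℤ) (M : Finset ℤ → ℝ) (K : ℝ) (J : ℕ) (w : ℤ) (cs : List (List ℕ))
    (gs : List ℕ) (S S0 : Finset ℤ) (a : ℤ) : Prop where
  eq : S = S0 ∪ ps a gs.reverse
  far : ∀ x ∈ S0, x + m ≤ a
  val : K * M S0 = w * (q : ℝ) ^ J * (cs.map fun c => M (ps 0 c)).prod

end HC38bc51.LP
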