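import Mathlib
import Pool.Agent.Work.MP_38bc51_pr.HC.Limit
import Pool.Agent.Work.MP_38bc51_pr.LP.Red

/-!
# Certificates for hard-core processes
-/

namespace HC38bc51.LP

/-- The polynomial has the shape of the independent sets of a path with `n` vertices: in
`node a b` the part `b` does not involve the variable after `x`. -/
def depH : ℕ → MP → Bool
  | 0, .leaf _ => true
  | 1, .node a b => depH 0 a && depH 0 b
  | n + 2, .node a b => depH (n + 1) a && depH n b
  | _, _ => false

/-- The part without the first variable. -/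
def fstT : MP → MP
  | .leaf c => .leaf c
  | .node a _ => a

/-- All values at independent sets are nonnegative. -/
def nnH : ℕ → MP → Bool
  | 0, .leaf c => decide (0 ≤ c)
  | 1, .node a b => nnH 0 a && nnH 0 (add (fstT a) b)
  | n + 2, .node a b => nnH (n + 1) a && nnH n (add (fstT a) b)
  | _, _ => false

/-- Evaluation. -/
def evH (τ : ℕ → ℝ) : MP → ℕ → ℝ
  | .leaf c, _ => c
  | .node a b, i => evH τ a (i + 1) + τ i * evH τ b (i + 2)

theorem depH_zero {P : MP} (h : depH 0 P = true) : ∃ c, P = .leaf c := by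
  cases P with
  | leaf c => exact ⟨c, rfl⟩
  | node a b => simp [depH] at h

theorem depH_one {P : MP} (h : depH 1 P = true) : ∃ c d, P = .node (.leaf c) (.leaf d) := by
  cases P with
  | leaf c => simp [depH] at h
  | node a b =>
    rw [depH, Bool.and_eq_true] at h
    obtain ⟨c, rfl⟩ := depH_zero h.1
    obtain ⟨d, rfl⟩ := depH_zero h.2
    exact ⟨c, d, rfl⟩

theorem depH_succ {n : ℕ} {P : MP} (h : depH (n + 2) P = true) :
    ∃ a b, P = .node a b ∧ depH (n + 1) a = true ∧ depH n b = true := by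
  cases P with
  | leaf c => simp [depH] at h
  | node a b =>
    rw [depH, Bool.and_eq_true] at h
    exact ⟨a, b, rfl, h⟩

theorem depH_add : ∀ (n : ℕ) {a b : MP}, depH n a = true → depH n b = true →
    depH n (add a b) = true
  | 0, a, b, ha, hb => by
    obtain ⟨x, rfl⟩ := depH_zero ha
    obtain ⟨y, rfl⟩ := depH_zero hb
    rfl
  | 1, a, b, ha, hb => by
    obtain ⟨x, y, rfl⟩ := depH_one ha
    obtain ⟨z, w, rfl⟩ := depH_one hb
    rfl
  | n + 2, a, b, ha, hb => by
    obtain ⟨a1, a2, rfl, h1, h2⟩ := depH_succ ha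
    obtain ⟨b1, b2, rfl, h3, h4⟩ := depH_succ hb
    rw [add, depH, depH_add (n + 1) h1 h3, depH_add n h2 h4]
    rfl

theorem evH_add (τ : ℕ → ℝ) : ∀ (n : ℕ) {a b : MP}, depH n a = true → depH n b = true → ∀ i,
    evH τ (add a b) i = evH τ a i + evH τ b i
  | 0, a, b, ha, hb => by
    obtain ⟨x, rfl⟩ := depH_zero ha
    obtain ⟨y, rfl⟩ := depH_zero hb
    intro i
    simp only [add, evH]
    push_cast
    ring
  | 1, a, b, ha, hb => by
    obtain ⟨x, y, rfl⟩ := depH_one ha
    obtain ⟨z, w, rfl⟩ := depH_one hb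
    intro i
    simp only [add, evH]
    push_cast
    ring
  | n + 2, a, b, ha, hb => by
    obtain ⟨a1, a2, rfl, h1, h2⟩ := depH_succ ha
    obtain ⟨b1, b2, rfl, h3, h4⟩ := depH_succ hb
    intro i
    simp only [add, evH]
    rw [evH_add τ (n + 1) h1 h3, evH_add τ n h2 h4]
    ring

theorem depH_fst : ∀ (n : ℕ) {a : MP}, depH (n + 1) a = true → depH n (fstT a) = true
  | 0, a, h => by
    obtain ⟨x, y, rfl⟩ := depH_one h
    rfl
  | n + 1, a, h => by
    obtain ⟨a1, a2, rfl, h1, -⟩ := depH_succ h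
    exact h1

theorem evH_fst (τ : ℕ → ℝ) {a : MP} {i : ℕ} (h : τ i = 0) :
    evH τ a i = evH τ (fstT a) (i + 1) := by
  cases a with
  | leaf c => rfl
  | node a b => rw [evH, h, zero_mul, add_zero, fstT]

/-- A polynomial which is nonnegative at independent sets is nonnegative at fractional ones. -/
theorem nnH_spec {τ : ℕ → ℝ} (h0 : ∀ i, 0 ≤ τ i) (h1 : ∀ i, τ i ≤ 1)
    (h2 : ∀ i, τ i = 0 ∨ τ (i + 1) = 0) : ∀ (n : ℕ) {P : MP}, depH n P = true →
    nnH n P = true → ∀ i, 0 ≤ evH τ P i
  | 0, P, hd, hn => by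
    obtain ⟨c, rfl⟩ := depH_zero hd
    intro i
    rw [nnH, decide_eq_true_eq] at hn
    simp only [evH]
    exact_mod_cast hn
  | 1, P, hd, hn => by
    obtain ⟨x, y, rfl⟩ := depH_one hd
    intro i
    rw [nnH, Bool.and_eq_true, nnH, decide_eq_true_eq, fstT, add, nnH, decide_eq_true_eq] at hn
    simp only [evH]
    have h3 : (0 : ℝ) ≤ x := by exact_mod_cast hn.1
    have h4 : (0 : ℝ) ≤ x + y := by exact_mod_cast hn.2
    nlinarith [mul_nonneg (sub_nonneg.2 (h1 i)) h3, mul_nonneg (h0 i) h4]
  | n + 2, P, hd, hn => by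
    obtain ⟨a, b, rfl, h3, h4⟩ := depH_succ hd
    intro i
    rw [nnH, Bool.and_eq_true] at hn
    have h5 := nnH_spec h0 h1 h2 (n + 1) h3 hn.1 (i + 1)
    have h6 := nnH_spec h0 h1 h2 n (depH_add n (depH_fst n h3) h4) hn.2 (i + 2)
    rw [evH_add τ n (depH_fst n h3) h4] at h6
    simp only [evH]
    rcases h2 i with h7 | h7
    · rw [h7, zero_mul, add_zero]
      exact h5
    · rw [evH_fst τ h7] at h5 ⊢
      nlinarith [mul_nonneg (sub_nonneg.2 (h1 i)) h5, mul_nonneg (h0 i) h6]

/-- The expectation, if `M S` is the expectation of the product of the variables in `S`. -/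
def linH (M : Finset ℤ → ℝ) : MP → ℕ → Finset ℤ → ℝ
  | .leaf c, _, S => c * M S
  | .node a b, i, S => linH M a (i + 1) S + linH M b (i + 2) (insert (i : ℤ) S)

/-- The rules of the expectations. -/
structure RuleH (m : ℕ) (p q : ℤ) (M : Finset ℤ → ℝ) : Prop where
  empty : M ∅ = 1
  mul : ∀ S T : Finset ℤ, (∀ a ∈ S, ∀ b ∈ T, (m : ℤ) ≤ |a - b|) → M (S ∪ T) = M S * M T
  shift : ∀ (S : Finset ℤ) (c : ℤ), M (S.image (· + c)) = M S
  single : (q : ℝ) * M {0} = p
  pos : 1 ≤ m

variable {m : ℕ} {p q : ℤ} {M : Finset ℤ → ℝ}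

theorem RuleH.ps_zero (h : RuleH m p q M) (es : List ℕ) (a : ℤ) : M (ps a es) = M (ps 0 es) := by
  have := ps_shift es 0 a
  rw [zero_add] at this
  rw [this, h.shift]

/-- Splitting at a large gap. -/
theorem RuleH.split (h : RuleH m p q M) (es fs : List ℕ) (e : ℕ) (he : m ≤ e + 1) :
    M (ps 0 (es ++ e :: fs)) = M (ps 0 es) * M (ps 0 fs) := by
  rw [ps_append, h.mul, h.ps_zero fs]
  intro a ha b hb
  have h1 := mem_ps_le es 0 a ha
  have h2 := mem_ps fs _ b hb
  have h3 : (m : ℤ) ≤ e + 1 := by exact_mod_cast he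
  rw [abs_sub_comm]
  exact le_trans (by linarith) (le_abs_self _)

theorem RuleH.join (h : RuleH m p q M) : ∀ (cs : List (List ℕ)) (c : List ℕ),
    M (ps 0 (LP.join m c cs)) = ((c :: cs).map fun c => M (ps 0 c)).prod
  | [], c => by simp [LP.join]
  | d :: ds, c => by
    have hp := h.pos
    rw [LP.join, h.split _ _ _ (by omega), RuleH.join h ds d]
    simp only [List.map_cons, List.prod_cons]

theorem RuleH.canon (h : RuleH m p q M) (cs : List (List ℕ)) :
    M (pl (LP.canon m cs) 0 ∅) = (cs.map fun c => M (ps 0 c)).prod := by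
  cases cs with
  | nil =>
    rw [LP.canon, pl, h.empty]
    rfl
  | cons c cs =>
    rw [LP.canon, pl_bits, Finset.empty_union, Nat.cast_zero, h.join]

/-! ### The law -/

open MeasureTheory ProbabilityTheory HC38bc51.HC

variable {k : ℕ} {Ω : Type} [MeasurableSpace Ω] {Pr : Measure Ω} {X : ℤ → Ω → Bool}

/-- The indicator of a one. -/
def yy (j : ℤ) (s : ℤ → Bool) : ℝ := if s j then 1 else 0

/-- The indicator of ones on `S`. -/
def YY (S : Finset ℤ) (s : ℤ → Bool) : ℝ := ∏ j ∈ S, yy j s

theorem yy_cases (j : ℤ) (s : ℤ → Bool) : yy j s = 1 ∨ yy j s = 0 := by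
  unfold yy
  cases s j <;> simp

theorem measurable_yy (j : ℤ) : Measurable (yy j) :=
  (measurable_of_countable (fun b : Bool => if b then (1 : ℝ) else 0)).comp
    (measurable_pi_apply j)

theorem measurable_YY (S : Finset ℤ) : Measurable (YY S) :=
  Finset.measurable_prod _ fun i _ => measurable_yy i

theorem YY_mem (S : Finset ℤ) (s : ℤ → Bool) : 0 ≤ YY S s ∧ YY S s ≤ 1 := by
  constructor
  · refine Finset.prod_nonneg fun i _ => ?_
    rcases yy_cases i s with h | h <;> simp [h]
  · refine Finset.prod_le_one (fun i _ => ?_) (fun i _ => ?_)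
    · rcases yy_cases i s with h | h <;> simp [h]
    · rcases yy_cases i s with h | h <;> simp [h]

/-- The sequence. -/
def seq (X : ℤ → Ω → Bool) (ω : Ω) (j : ℤ) : Bool := X j ω

theorem measurable_seq (hX : IsHardCore k Pr X) : Measurable (seq X) :=
  measurable_pi_iff.2 fun j => hX.meas j

/-- The probability of ones on `S`. -/
noncomputable def pone (Pr : Measure Ω) (X : ℤ → Ω → Bool) (S : Finset ℤ) : ℝ :=
  ∫ ω, YY S (seq X ω) ∂Pr

theorem pone_shift (hX : IsHardCore k Pr X) (S : Finset ℤ) (c : ℤ) :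
    pone Pr X (S.image (· + c)) = pone Pr X S := by
  have pos : ∀ (n : ℕ) (T : Finset ℤ), pone Pr X (T.image (· + (n : ℤ))) = pone Pr X T := by
    intro n T
    have h1 : ∫ s, YY T s ∂(Pr.map (fun ω i => X (i + n) ω)) =
        ∫ s, YY T s ∂(Pr.map (fun ω i => X i ω)) := by
      rw [law_shift hX n]
    rw [integral_map (measurable_pi_iff.2 fun j => hX.meas (j + n)).aemeasurable
      (measurable_YY T).aestronglyMeasurable,
      integral_map (measurable_pi_iff.2 fun j => hX.meas j).aemeasurable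
      (measurable_YY T).aestronglyMeasurable] at h1
    refine Eq.trans ?_ h1
    unfold pone
    congr 1
    funext ω
    unfold YY
    rw [Finset.prod_image (fun a _ b _ h => by simpa using h)]
    rfl
  obtain ⟨n, rfl | rfl⟩ := Int.eq_nat_or_neg c
  · exact pos n S
  · rw [← pos n (S.image _), Finset.image_image]
    congr 1
    ext a
    simp [Function.comp_def]

theorem pone_mul (hX : IsHardCore k Pr X) (S T : Finset ℤ)
    (hST : ∀ a ∈ S, ∀ b ∈ T, ((k + 1 : ℕ) : ℤ) ≤ |a - b|) :
    pone Pr X (S ∪ T) = pone Pr X S * pone Pr X T := by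
  have := hX.prob
  have hd : Disjoint S T := by
    rw [Finset.disjoint_left]
    intro a ha hb
    have := hST a ha a hb
    simp at this
    omega
  have h1 := hX.dep (S : Set ℤ) (T : Set ℤ) (by
    intro a ha b hb
    have h2 := hST a ha b hb
    push_cast at h2
    linarith)
  have key : ∀ U : Finset ℤ, (fun ω => YY U (seq X ω)) =
      (fun y : (↥(U : Set ℤ) → Bool) =>
      ∏ i ∈ U.attach, (if y ⟨i.1, Finset.mem_coe.2 i.2⟩ then (1 : ℝ) else 0)) ∘
      (fun ω (a : (U : Set ℤ)) => X a ω) := by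
    intro U
    funext ω
    simp only [Function.comp_apply, YY, yy, seq]
    exact (Finset.prod_attach U (fun i => if X i ω then (1 : ℝ) else 0)).symm
  have hmeas : ∀ U : Finset ℤ, Measurable
      (fun y : (↥(U : Set ℤ) → Bool) =>
      ∏ i ∈ U.attach, (if y ⟨i.1, Finset.mem_coe.2 i.2⟩ then (1 : ℝ) else 0)) := by
    intro U
    refine Finset.measurable_prod _ fun i _ => ?_
    exact (measurable_of_countable (fun b : Bool => if b then (1 : ℝ) else 0)).comp
      (measurable_pi_apply _)
  have h2 := h1.comp (hmeas S) (hmeas T)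
  rw [← key S, ← key T] at h2
  have h3 := h2.integral_mul_eq_mul_integral
    ((measurable_YY S).comp (measurable_seq hX)).aestronglyMeasurable
    ((measurable_YY T).comp (measurable_seq hX)).aestronglyMeasurable
  unfold pone
  rw [← h3]
  congr 1
  funext ω
  simp only [Pi.mul_apply, YY]
  rw [Finset.prod_union hd]

/-- The probabilities of the process thinned by the factor `t`. -/
noncomputable def thinH (Pr : Measure Ω) (X : ℤ → Ω → Bool) (t : ℝ) (S : Finset ℤ) : ℝ :=
  t ^ S.card * pone Pr X S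

theorem ruleH (hX : IsHardCore k Pr X) {t : ℝ} (ht : (q : ℝ) * (t * pone Pr X {0}) = p) :
    RuleH (k + 1) p q (thinH Pr X t) := by
  have := hX.prob
  refine ⟨?_, ?_, ?_, ?_, by omega⟩
  · simp [thinH, pone, YY]
  · intro S T h
    have hd : Disjoint S T := by
      rw [Finset.disjoint_left]
      intro a ha hb
      have := h a ha a hb
      simp at this
      omega
    rw [thinH, thinH, thinH, Finset.card_union_of_disjoint hd, pone_mul hX S T h, pow_add]
    ring
  · intro S c
    rw [thinH, thinH, pone_shift hX, Finset.card_image_of_injective _ (add_left_injective c)]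
  · rw [thinH]
    simpa using ht

theorem integrable_YY (hX : IsHardCore k Pr X) (S : Finset ℤ) :
    Integrable (fun ω => YY S (seq X ω)) Pr := by
  have := hX.prob
  exact Integrable.of_bound ((measurable_YY S).comp (measurable_seq hX)).aestronglyMeasurable 1
    (Filter.Eventually.of_forall fun ω => by
      obtain ⟨h1, h2⟩ := YY_mem S (seq X ω)
      rw [Real.norm_eq_abs, abs_of_nonneg h1]
      exact h2)

theorem expectH (hX : IsHardCore k Pr X) (t : ℝ) : ∀ (P : MP) (i : ℕ) (S : Finset ℤ),
    (∀ a ∈ S, a < (i : ℤ)) →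
    Integrable (fun ω => YY S (seq X ω) * evH (fun j => t * yy j (seq X ω)) P i) Pr ∧
      t ^ S.card * ∫ ω, YY S (seq X ω) * evH (fun j => t * yy j (seq X ω)) P i ∂Pr =
        linH (thinH Pr X t) P i S
  | .leaf c, i, S, hS => by
    simp only [evH, linH]
    refine ⟨(integrable_YY hX S).mul_const _, ?_⟩
    rw [integral_mul_const, thinH, pone]
    ring
  | .node a b, i, S, hS => by
    have hi : (i : ℤ) ∉ S := fun h => lt_irrefl _ (hS _ h)
    obtain ⟨a1, a2⟩ := expectH hX t a (i + 1) S (fun x hx => by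
      have := hS x hx
      push_cast
      linarith)
    obtain ⟨b1, b2⟩ := expectH hX t b (i + 2) (insert (i : ℤ) S) (fun x hx => by
      rw [Finset.mem_insert] at hx
      rcases hx with rfl | hx
      · push_cast
        linarith
      · have := hS x hx
        push_cast
        linarith)
    have e : (fun ω => YY S (seq X ω) * evH (fun j => t * yy j (seq X ω)) (.node a b) i) =
        fun ω => YY S (seq X ω) * evH (fun j => t * yy j (seq X ω)) a (i + 1) +
          t * (YY (insert (i : ℤ) S) (seq X ω) *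
            evH (fun j => t * yy j (seq X ω)) b (i + 2)) := by
      funext ω
      rw [evH]
      unfold YY
      rw [Finset.prod_insert hi]
      ring
    rw [e]
    refine ⟨a1.add (b1.const_mul t), ?_⟩
    rw [integral_add a1 (b1.const_mul t), integral_const_mul, linH, ← a2, ← b2,
      Finset.card_insert_of_notMem hi, pow_succ]
    ring

theorem pone_zero (hX : IsHardCore k Pr X) : pone Pr X {0} = Pr.real {ω | X 0 ω = true} := by
  have hm : MeasurableSet {ω | X 0 ω = true} := AllK.ms hX 0 true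
  rw [← integral_indicator_one hm, pone]
  congr 1
  funext ω
  by_cases h : X 0 ω = true
  · rw [Set.indicator_of_mem (show ω ∈ {ω | X 0 ω = true} from h)]
    simp [YY, yy, seq, h]
  · rw [Set.indicator_of_notMem (show ω ∉ {ω | X 0 ω = true} from h)]
    simp [YY, yy, seq, h]

/-- **Upper bounds for the density from certificates.** -/
theorem dens_lt (hX : IsHardCore k Pr X) {p q : ℤ} (hp : 0 < p) (hq : 0 < q) (n : ℕ)
    {P : MP} (hd : depH n P = true) (hn : nnH n P = true)
    (hN : ∀ M : Finset ℤ → ℝ, RuleH (k + 1) p q M → linH M P 0 ∅ < 0) :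
    Pr.real {ω | X 0 ω = true} < p / q := by
  have := hX.prob
  by_contra hcon
  push Not at hcon
  rw [← pone_zero hX] at hcon
  have hp' : (0 : ℝ) < p := by exact_mod_cast hp
  have hq' : (0 : ℝ) < q := by exact_mod_cast hq
  have hρ : 0 < pone Pr X {0} := lt_of_lt_of_le (by positivity) hcon
  set t : ℝ := (p / q) / pone Pr X {0} with ht
  have ht0 : 0 ≤ t := by positivity
  have ht1 : t ≤ 1 := by
    rw [ht, div_le_one hρ]
    exact hcon
  have hr : RuleH (k + 1) p q (thinH Pr X t) := ruleH hX (by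
    rw [ht]
    field_simp)
  have h1 := hN _ hr
  obtain ⟨-, h2⟩ := expectH hX t P 0 ∅ (by simp)
  rw [← h2, Finset.card_empty, pow_zero, one_mul] at h1
  refine absurd h1 (not_lt.2 (integral_nonneg_of_ae ?_))
  filter_upwards [hX.hard] with ω hω
  have h3 : YY ∅ (seq X ω) = 1 := by simp [YY]
  have h4 := nnH_spec (τ := fun j : ℕ => t * yy j (seq X ω))
    (fun j => by rcases yy_cases j (seq X ω) with h | h <;> simp [h, ht0])
    (fun j => by rcases yy_cases j (seq X ω) with h | h <;> simp [h, ht1])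
    (fun j => by
      by_cases hj : X (j : ℤ) ω = true
      · right
        have h5 : ¬ X ((j : ℤ) + 1) ω = true := fun h6 => hω ⟨j, hj, h6⟩
        show t * yy ((j + 1 : ℕ) : ℤ) (seq X ω) = 0
        push_cast
        simp [yy, seq, h5]
      · left
        show t * yy (j : ℤ) (seq X ω) = 0
        simp [yy, seq, hj]) n hd hn 0
  show 0 ≤ YY ∅ (seq X ω) * evH (fun j : ℕ => t * yy j (seq X ω)) P 0
  rw [h3, one_mul]
  exact h4

theorem pcrit_le_of {p q : ℤ} (hp : 0 < p) (hq : 0 < q) (n : ℕ)
    {P : MP} (hd : depH n P = true) (hn : nnH n P = true)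
    (hN : ∀ M : Finset ℤ → ℝ, RuleH (k + 1) p q M → linH M P 0 ∅ < 0) : pcrit k ≤ p / q := by
  refine csSup_le (dens_nonempty k) ?_
  rintro _ ⟨Ω, i, Pr, X, hX, rfl⟩
  exact (dens_lt hX hp hq n hd hn hN).le

/-! ### Polynomials from one number -/

/-- The number of independent sets of a path with `n` vertices. -/
def cntH : ℕ → ℕ
  | 0 => 1
  | 1 => 2
  | n + 2 => cntH (n + 1) + cntH n

/-- The polynomial with the shape of a path with `n` vertices whose coefficients are the digits of
`x` in the base `2 ^ B`, lowered by `2 ^ (B - 1)`. -/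
def bldH (B : ℕ) : ℕ → ℕ → MP
  | 0, x => .leaf ((x : ℤ) - (2 ^ (B - 1) : ℕ))
  | 1, x => .node (bldH B 0 (x % 2 ^ B)) (bldH B 0 (x / 2 ^ B))
  | n + 2, x => .node (bldH B (n + 1) (x % 2 ^ (B * cntH (n + 1))))
      (bldH B n (x / 2 ^ (B * cntH (n + 1))))

theorem depH_bldH (B : ℕ) : ∀ (n : ℕ) (x : ℕ), depH n (bldH B n x) = true
  | 0, x => rfl
  | 1, x => rfl
  | n + 2, x => by
    rw [bldH, depH, depH_bldH B (n + 1), depH_bldH B n]
    rfl

end HC38bc51.LP
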