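import Mathlib
import Pool.Agent.Work.MP_38bc51_pr.LP.Hard
import Pool.Agent.Work.MP_38bc51_pr.LP.Can

/-!
# The traversal for hard-core processes; translates are added first
-/

namespace HC38bc51.LP

/-- Close the current part. -/
def closeH (p : ℤ) : List ℕ → ℕ → ℤ → List (List ℕ) → (ℕ → ℤ → List (List ℕ) → MP) → MP
  | [], J + 1, w, cs, k => k J (Int.mul w p) cs
  | [], 0, w, cs, k => k 0 w (insF [] cs)
  | g :: gs, J, w, cs, k => k J w (insF (rvl (g :: gs) []) cs)

variable {m : ℕ} {p q : ℤ} {M : Finset ℤ → ℝ}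

theorem RuleH.st_val (h : RuleH m p q M) {K : ℝ} {J : ℕ} {w : ℤ} {cs : List (List ℕ)}
    {gs : List ℕ} {S S0 : Finset ℤ} {a : ℤ} (hs : St m q M K J w cs gs S S0 a) :
    K * M S = w * (q : ℝ) ^ J * (cs.map fun c => M (ps 0 c)).prod * M (ps 0 gs.reverse) := by
  rw [hs.eq, h.mul, h.ps_zero, ← mul_assoc, hs.val]
  intro x hx y hy
  have h1 := hs.far x hx
  have h2 := mem_ps _ _ y hy
  rw [abs_sub_comm]
  exact le_trans (by linarith) (le_abs_self _)

/-- What closing does. -/
theorem RuleH.close (h : RuleH m p q M) (k : ℕ → ℤ → List (List ℕ) → MP) {R X : ℝ}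
    (hk : ∀ (J : ℕ) (w : ℤ) (cs : List (List ℕ)),
      R = w * (q : ℝ) ^ J * (cs.map fun c => M (ps 0 c)).prod → lin M (k J w cs) 0 ∅ = X) :
    ∀ (gs : List ℕ) (J : ℕ) (w : ℤ) (cs : List (List ℕ)),
    R = w * (q : ℝ) ^ J * (cs.map fun c => M (ps 0 c)).prod * M (ps 0 gs.reverse) →
    lin M (closeH p gs J w cs k) 0 ∅ = X
  | [], J + 1, w, cs, hR => by
    rw [closeH]
    refine hk _ _ _ ?_
    rw [hR]
    have h2 : M (ps 0 ([] : List ℕ).reverse) = M {0} := rfl
    have h3 : Int.mul w p = w * p := rfl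
    rw [h2, h3]
    push_cast
    rw [← h.single]
    ring
  | [], 0, w, cs, hR => by
    rw [closeH]
    refine hk _ _ _ ?_
    rw [hR, ((insF_perm _ _).map _).prod_eq, List.map_cons, List.prod_cons, List.reverse_nil]
    ring
  | g :: gs, J, w, cs, hR => by
    rw [closeH]
    refine hk _ _ _ ?_
    rw [hR, ((insF_perm _ _).map _).prod_eq, List.map_cons, List.prod_cons, rvl_eq,
      List.append_nil]
    ring

/-- The traversal after the first point. -/
def goC (m : ℕ) (p q : ℤ) : ℕ → MP → ℕ → ℤ → List (List ℕ) → List ℕ → ℕ → MP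
  | _, .leaf c, J, w, cs, gs, _ => cond (isz c) (.leaf 0)
      (closeH p gs J w cs fun J w cs => top m cs (.leaf (Int.mul c (Int.mul w (q ^ J)))))
  | 0, .node _ _, _, _, _, _, _ => .leaf 0
  | n + 1, .node a b, J, w, cs, gs, d =>
    cond (Nat.ble m (Nat.succ d))
      (closeH p gs J w cs fun J w cs =>
        addT (top m cs (.leaf (Int.mul (cst a) (Int.mul w (q ^ J)))))
          (goC m p q n (rst (.node a b)) J w cs [] 1))
      (addT (goC m p q n a J w cs gs (Nat.succ d)) (goC m p q n b J w cs (d :: gs) 1))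

/-- The traversal. -/
def goD (m J n : ℕ) (p q : ℤ) (P : MP) : MP :=
  addT (.leaf (cst P * q ^ J)) (goC m p q n (rst P) J 1 [] [] 1)

theorem linH_addC (M : Finset ℤ → ℝ) : ∀ (P : MP) (x : ℤ) (i : ℕ) (S : Finset ℤ),
    linH M (addC P x) i S = linH M P i S + x * M S
  | .leaf c, x, i, S => by
    simp only [addC, linH]
    push_cast
    ring
  | .node a b, x, i, S => by
    simp only [addC, linH]
    rw [linH_addC M a]
    ring

theorem linH_addT (M : Finset ℤ → ℝ) : ∀ (P Q : MP) (i : ℕ) (S : Finset ℤ),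
    linH M (addT P Q) i S = linH M P i S + linH M Q i S
  | .leaf x, P, i, S => by
    simp only [addT, linH]
    rw [linH_addC]
    ring
  | .node a b, .leaf y, i, S => by
    simp only [addT, linH]
    rw [linH_addC]
    ring
  | .node a b, .node c d, i, S => by
    simp only [addT, linH]
    rw [linH_addT M a c, linH_addT M b d]
    ring

theorem RuleH.linH_shift (h : RuleH m p q M) (c : ℕ) : ∀ (P : MP) (i : ℕ) (S : Finset ℤ),
    linH M P (i + c) (S.image (· + (c : ℤ))) = linH M P i S
  | .leaf x, i, S => by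
    rw [linH, linH, h.shift]
  | .node a b, i, S => by
    rw [linH, linH, ← RuleH.linH_shift h c a (i + 1) S, ← RuleH.linH_shift h c b (i + 2) _,
      Finset.image_insert]
    congr 2
    · omega
    · omega

/-- Factorisation. -/
theorem RuleH.linH_far (h : RuleH m p q M) : ∀ (P : MP) (i : ℕ) (S T : Finset ℤ),
    (∀ x ∈ S, x + m ≤ (i : ℤ)) → (∀ x ∈ S, ∀ y ∈ T, x + m ≤ y) →
    linH M P i (S ∪ T) = M S * linH M P i T
  | .leaf x, i, S, T, hS, hT => by
    rw [linH, linH, h.mul]
    · ring
    · intro a ha b hb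
      rw [abs_sub_comm]
      exact le_trans (by linarith [hT a ha b hb]) (le_abs_self _)
  | .node a b, i, S, T, hS, hT => by
    rw [linH, linH, RuleH.linH_far h a (i + 1) S T (fun x hx => by
      have := hS x hx
      push_cast
      linarith) hT, ← Finset.union_insert,
      RuleH.linH_far h b (i + 2) S (insert (i : ℤ) T) (fun x hx => by
      have := hS x hx
      push_cast
      linarith) (fun x hx y hy => by
        rw [Finset.mem_insert] at hy
        rcases hy with rfl | hy
        · exact hS x hx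
        · exact hT x hx y hy)]
    ring

theorem RuleH.linH_rst (h : RuleH m p q M) : ∀ (P : MP) (i : ℕ),
    linH M P i ∅ = cst P + linH M (rst P) 2 {0}
  | .leaf x, i => by
    rw [linH, h.empty, cst, rst, linH]
    simp
  | .node a b, i => by
    rw [linH, RuleH.linH_rst h a (i + 1), cst, rst, linH_addT]
    have h1 := h.linH_shift i b 2 {0}
    rw [Finset.image_singleton, zero_add, add_comm 2 i] at h1
    have h2 : insert (i : ℤ) (∅ : Finset ℤ) = {(i : ℤ)} := rfl
    rw [h2, h1]
    ring

theorem RuleH.goC (h : RuleH m p q M) : ∀ (n : ℕ) (P : MP) (K : ℝ) (J : ℕ) (w : ℤ)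
    (cs : List (List ℕ)) (gs : List ℕ) (d i : ℕ) (S S0 : Finset ℤ) (a : ℤ), dpt P ≤ n →
    St m q M K J w cs gs S S0 a → lst a gs.reverse + d + 1 = i →
    lin M (LP.goC m p q n P J w cs gs d) 0 ∅ = K * linH M P i S
  | n, .leaf c, K, J, w, cs, gs, d, i, S, S0, a, hn, hs, hi => by
    have e : LP.goC m p q n (.leaf c) J w cs gs d = cond (isz c) (.leaf 0)
      (closeH p gs J w cs fun J w cs => top m cs (.leaf (Int.mul c (Int.mul w (q ^ J))))) := by
      cases n <;> rfl
    rw [e]
    cases hc : isz c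
    · rw [cond_false]
      refine h.close _ (fun J' w' cs' hR => ?_) _ _ _ _ (h.st_val hs)
      rw [lin_top, h.canon, linH]
      have h3 : Int.mul c (Int.mul w' (q ^ J')) = c * (w' * q ^ J') := rfl
      rw [h3]
      push_cast
      linear_combination -(c : ℝ) * hR
    · rw [cond_true, linH, isz_spec hc, lin]
      simp
  | 0, .node a' b, K, J, w, cs, gs, d, i, S, S0, a, hn, hs, hi => by
    rw [dpt] at hn
    omega
  | n + 1, .node a' b, K, J, w, cs, gs, d, i, S, S0, a, hn, hs, hi => by
    have hda : dpt a' ≤ n := by rw [dpt] at hn; omega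
    have hdb : dpt b ≤ n := by rw [dpt] at hn; omega
    rw [LP.goC]
    cases hm : Nat.ble m (Nat.succ d)
    · rw [cond_false, addT_spec, linH, mul_add]
      have hi1 : lst a gs.reverse + (Nat.succ d : ℕ) + 1 = ((i + 1 : ℕ) : ℤ) := by
        push_cast
        linarith
      rw [RuleH.goC h n a' K J w cs gs (Nat.succ d) (i + 1) S S0 a hda hs hi1]
      congr 1
      refine RuleH.goC h n b K J w cs (d :: gs) 1 (i + 2) _ S0 a hdb ⟨?_, hs.far, hs.val⟩ ?_
      · rw [hs.eq, List.reverse_cons, ps_append, hi, ps, Finset.insert_eq, Finset.union_comm,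
          Finset.union_assoc]
      · rw [List.reverse_cons, lst_append, hi]
        push_cast
        ring
    · rw [cond_true]
      have hm' : m ≤ d + 1 := Nat.le_of_ble_eq_true hm
      have hfar : ∀ x ∈ S, x + m ≤ (i : ℤ) := by
        intro x hx
        have h5 : (m : ℤ) ≤ d + 1 := by exact_mod_cast hm'
        rw [hs.eq, Finset.mem_union] at hx
        rcases hx with hx | hx
        · have h6 := hs.far x hx
          have h7 : a ≤ lst a gs.reverse := by
            have : a ∈ ps a gs.reverse := by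
              cases gs.reverse with
              | nil => simp [ps]
              | cons e es => simp [ps]
            exact mem_ps_le _ _ _ this
          have h8 : (0 : ℤ) ≤ d := by positivity
          linarith
        · have h6 := mem_ps_le _ _ _ hx
          linarith
      have hX : linH M (.node a' b) i S = M S * (cst a' + linH M (rst (.node a' b)) 2 {0}) := by
        have h5 := h.linH_far (.node a' b) i S ∅ hfar (by simp)
        rw [Finset.union_empty] at h5
        rw [h5, h.linH_rst, cst]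
      refine h.close _ (fun J' w' cs' hR => ?_) _ _ _ _ (h.st_val hs)
      rw [addT_spec, lin_top, h.canon, hX]
      rw [RuleH.goC h n (rst (.node a' b)) (K * M S) J' w' cs' [] 1 2 {0} ∅ 0
        (dpt_rst _ _ hn) ⟨rfl, by simp, by rw [h.empty, mul_one, hR]⟩ rfl]
      have h3 : Int.mul (cst a') (Int.mul w' (q ^ J')) = cst a' * (w' * q ^ J') := rfl
      rw [h3]
      push_cast
      linear_combination -(cst a' : ℝ) * hR

theorem RuleH.goD (h : RuleH m p q M) (J n : ℕ) (P : MP) (hn : dpt P ≤ n + 1) :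
    lin M (LP.goD m J n p q P) 0 ∅ = (q : ℝ) ^ J * linH M P 0 ∅ := by
  rw [LP.goD, addT_spec, lin, h.empty, h.linH_rst,
    h.goC n (rst P) ((q : ℝ) ^ J) J 1 [] [] 1 2 {0} ∅ 0 (dpt_rst _ _ hn) ⟨rfl, by simp, ?_⟩ rfl]
  · push_cast
    ring
  · rw [h.empty]
    simp

/-- **The criterion.** -/
theorem RuleH.lin_neg_of (h : RuleH m p q M) (hq : 0 < q) (J n : ℕ) {P : MP}
    (hn : dpt P ≤ n + 1) (hP : neg (LP.goD m J n p q P) = true) : linH M P 0 ∅ < 0 := by
  have h1 := neg_spec M h.empty _ hP 0
  rw [h.goD J n P hn] at h1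
  have h2 : (0 : ℝ) < (q : ℝ) ^ J := by
    have : (0 : ℝ) < q := by exact_mod_cast hq
    positivity
  by_contra h3
  push Not at h3
  have := mul_nonneg h2.le h3
  linarith

theorem dpt_of_depH : ∀ (n : ℕ) {P : MP}, depH n P = true → dpt P ≤ n
  | 0, P, h => by
    obtain ⟨c, rfl⟩ := depH_zero h
    exact le_rfl
  | 1, P, h => by
    obtain ⟨x, y, rfl⟩ := depH_one h
    simp [dpt]
  | n + 2, P, h => by
    obtain ⟨a, b, rfl, h1, h2⟩ := depH_succ h
    rw [dpt]
    have h3 := dpt_of_depH (n + 1) h1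
    have h4 := dpt_of_depH n h2
    omega

/-- **Upper bounds for `p_k` from certificates.** -/
theorem pcrit_le_cert {k : ℕ} {p q : ℤ} (hp : 0 < p) (hq : 0 < q) (J n : ℕ)
    {P : MP} (hd : depH (n + 1) P = true) (hn : nnH (n + 1) P = true)
    (hN : neg (LP.goD (k + 1) J n p q P) = true) : HC38bc51.pcrit k ≤ p / q :=
  pcrit_le_of hp hq (n + 1) hd hn fun _ h => h.lin_neg_of hq J n (dpt_of_depH _ hd) hN

end HC38bc51.LP
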