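import Mathlib
import Pool.Agent.Work.MP_38bc51_pr.LP.Law
import Pool.Agent.Work.MP_38bc51_pr.LP.Build
import Pool.Agent.Work.MP_38bc51_pr.LP.Can

/-!
# The traversal for sign laws; translates are added first
-/

namespace HC38bc51.LP

/-- The parity of the length of a list. -/
def evl : List ℕ → Bool
  | [] => true
  | [_] => false
  | _ :: _ :: l => evl l

theorem evl_spec : ∀ (l : List ℕ), evl l = true → l.length % 2 = 0
  | [], _ => rfl
  | [_], h => by simp [evl] at h
  | _ :: _ :: l, h => by
    rw [evl] at h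
    have := evl_spec l h
    simp only [List.length_cons]
    omega

/-- Close the current part; a pair of neighbours is replaced by its value. -/
def closeP (p : ℤ) : List ℕ → ℕ → ℤ → List (List ℕ) → (ℕ → ℤ → List (List ℕ) → MP) → MP
  | [0], J + 1, w, cs, k => k J (Int.mul w p) cs
  | gs, J, w, cs, k => k J w (insF (rvl gs []) cs)

/-- Close the current part: a part with an odd number of points contributes nothing. -/
def closeS (p : ℤ) (gs : List ℕ) (J : ℕ) (w : ℤ) (cs : List (List ℕ))
    (k : ℕ → ℤ → List (List ℕ) → MP) : MP :=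
  cond (evl gs) (.leaf 0) (closeP p gs J w cs k)

/-- The traversal after the first point. -/
def goS (m : ℕ) (p q : ℤ) : ℕ → MP → ℕ → ℤ → List (List ℕ) → List ℕ → ℕ → MP
  | _, .leaf c, J, w, cs, gs, _ => cond (isz c) (.leaf 0)
      (closeS p gs J w cs fun J w cs => top m cs (.leaf (Int.mul c (Int.mul w (q ^ J)))))
  | 0, .node _ _, _, _, _, _, _ => .leaf 0
  | n + 1, .node a b, J, w, cs, gs, d =>
    cond (Nat.ble m (Nat.succ d))
      (closeS p gs J w cs fun J w cs =>
        addT (top m cs (.leaf (Int.mul (cst a) (Int.mul w (q ^ J)))))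
          (goS m p q n (rst (.node a b)) J w cs [] 0))
      (addT (goS m p q n a J w cs gs (Nat.succ d)) (goS m p q n b J w cs (d :: gs) 0))

/-- The traversal. -/
def goT (m J n : ℕ) (p q : ℤ) (P : MP) : MP :=
  addT (.leaf (cst P * q ^ J)) (goS m p q n (rst P) J 1 [] [] 0)

variable {m : ℕ} {p q : ℤ} {M : Finset ℤ → ℝ}

/-- What closing does. -/
theorem Rule.close (h : Rule m p q M) (k : ℕ → ℤ → List (List ℕ) → MP) {R X : ℝ}
    (h0 : R = 0 → X = 0)
    (hk : ∀ (J : ℕ) (w : ℤ) (cs : List (List ℕ)),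
      R = w * (q : ℝ) ^ J * (cs.map fun c => M (ps 0 c)).prod → lin M (k J w cs) 0 ∅ = X)
    (gs : List ℕ) (J : ℕ) (w : ℤ) (cs : List (List ℕ))
    (hR : R = w * (q : ℝ) ^ J * (cs.map fun c => M (ps 0 c)).prod * M (ps 0 gs.reverse)) :
    lin M (closeS p gs J w cs k) 0 ∅ = X := by
  rw [closeS]
  cases he : evl gs
  · rw [cond_false]
    have gen : lin M (k J w (insF (rvl gs []) cs)) 0 ∅ = X := by
      refine hk _ _ _ ?_
      rw [hR, ((insF_perm _ _).map _).prod_eq, List.map_cons, List.prod_cons, rvl_eq,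
        List.append_nil]
      ring
    unfold closeP
    split
    · refine hk _ _ _ ?_
      rw [hR]
      have h2 : M (ps 0 ([0] : List ℕ).reverse) = M {0, 1} := by
        simp [ps]
      rename_i w' cs' k' J'
      have h3 : Int.mul w p = w * p := rfl
      rw [h2, h3, pow_succ]
      push_cast
      rw [← h.pair]
      ring
    · exact gen
  · rw [cond_true, lin]
    have h1 : M (ps 0 gs.reverse) = 0 := by
      refine h.odd _ ?_
      rw [card_ps, List.length_reverse]
      exact Even.add_one (Nat.even_iff.2 (evl_spec _ he))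
    rw [h0 (by rw [hR, h1, mul_zero])]
    simp

theorem lin_shift_nat (hs : ∀ (S : Finset ℤ) (c : ℤ), M (S.image (· + c)) = M S) (c : ℕ) :
    ∀ (P : MP) (i : ℕ) (S : Finset ℤ), lin M P (i + c) (S.image (· + (c : ℤ))) = lin M P i S
  | .leaf x, i, S => by
    rw [lin, lin, hs]
  | .node a b, i, S => by
    rw [lin, lin, ← lin_shift_nat hs c a (i + 1) S, ← lin_shift_nat hs c b (i + 1) _,
      Finset.image_insert]
    have e : i + c + 1 = i + 1 + c := by omega
    rw [e]
    push_cast
    rfl

/-- Factorisation. -/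
theorem Rule.lin_far (h : Rule m p q M) : ∀ (P : MP) (i : ℕ) (S T : Finset ℤ),
    (∀ x ∈ S, x + m ≤ (i : ℤ)) → (∀ x ∈ S, ∀ y ∈ T, x + m ≤ y) →
    lin M P i (S ∪ T) = M S * lin M P i T
  | .leaf x, i, S, T, hS, hT => by
    rw [lin, lin, h.mul]
    · ring
    · intro a ha b hb
      rw [abs_sub_comm]
      exact le_trans (by linarith [hT a ha b hb]) (le_abs_self _)
  | .node a b, i, S, T, hS, hT => by
    rw [lin, lin, Rule.lin_far h a (i + 1) S T (fun x hx => by
      have := hS x hx
      push_cast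
      linarith) hT, ← Finset.union_insert,
      Rule.lin_far h b (i + 1) S (insert (i : ℤ) T) (fun x hx => by
      have := hS x hx
      push_cast
      linarith) (fun x hx y hy => by
        rw [Finset.mem_insert] at hy
        rcases hy with rfl | hy
        · exact hS x hx
        · exact hT x hx y hy)]
    ring

theorem Rule.lin_rst (h : Rule m p q M) : ∀ (P : MP) (i : ℕ),
    lin M P i ∅ = cst P + lin M (rst P) 1 {0}
  | .leaf x, i => by
    rw [lin, h.empty, cst, rst, lin]
    simp
  | .node a b, i => by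
    rw [lin, Rule.lin_rst h a (i + 1), cst, rst, addT_spec]
    have h1 := lin_shift_nat h.shift i b 1 {0}
    rw [Finset.image_singleton, zero_add, add_comm 1 i] at h1
    have h2 : insert (i : ℤ) (∅ : Finset ℤ) = {(i : ℤ)} := rfl
    rw [h2, h1]
    ring

theorem Rule.st_val (h : Rule m p q M) {K : ℝ} {J : ℕ} {w : ℤ} {cs : List (List ℕ)}
    {gs : List ℕ} {S S0 : Finset ℤ} {a : ℤ} (hs : St m q M K J w cs gs S S0 a) :
    K * M S = w * (q : ℝ) ^ J * (cs.map fun c => M (ps 0 c)).prod * M (ps 0 gs.reverse) := by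
  rw [hs.eq, h.mul, h.ps_zero, ← mul_assoc, hs.val]
  intro x hx y hy
  have h1 := hs.far x hx
  have h2 := mem_ps _ _ y hy
  rw [abs_sub_comm]
  exact le_trans (by linarith) (le_abs_self _)

theorem Rule.goS (h : Rule m p q M) : ∀ (n : ℕ) (P : MP) (K : ℝ) (J : ℕ) (w : ℤ)
    (cs : List (List ℕ)) (gs : List ℕ) (d i : ℕ) (S S0 : Finset ℤ) (a : ℤ), dpt P ≤ n →
    St m q M K J w cs gs S S0 a → lst a gs.reverse + d + 1 = i →
    lin M (LP.goS m p q n P J w cs gs d) 0 ∅ = K * lin M P i S
  | n, .leaf c, K, J, w, cs, gs, d, i, S, S0, a, hn, hs, hi => by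
    have e : LP.goS m p q n (.leaf c) J w cs gs d = cond (isz c) (.leaf 0)
      (closeS p gs J w cs fun J w cs => top m cs (.leaf (Int.mul c (Int.mul w (q ^ J))))) := by
      cases n <;> rfl
    rw [e]
    cases hc : isz c
    · rw [cond_false]
      refine h.close _ (R := K * M S) (fun hR => ?_) (fun J' w' cs' hR => ?_) _ _ _ _ (h.st_val hs)
      · rw [lin]
        linear_combination (c : ℝ) * hR
      · rw [lin_top, h.canon, lin]
        have h3 : Int.mul c (Int.mul w' (q ^ J')) = c * (w' * q ^ J') := rfl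
        rw [h3]
        push_cast
        linear_combination -(c : ℝ) * hR
    · rw [cond_true, lin, lin, isz_spec hc]
      simp
  | 0, .node a' b, K, J, w, cs, gs, d, i, S, S0, a, hn, hs, hi => by
    rw [dpt] at hn
    omega
  | n + 1, .node a' b, K, J, w, cs, gs, d, i, S, S0, a, hn, hs, hi => by
    have hda : dpt a' ≤ n := by rw [dpt] at hn; omega
    have hdb : dpt b ≤ n := by rw [dpt] at hn; omega
    rw [LP.goS]
    cases hm : Nat.ble m (Nat.succ d)
    · rw [cond_false, addT_spec, lin, mul_add]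
      have hi1 : lst a gs.reverse + (Nat.succ d : ℕ) + 1 = ((i + 1 : ℕ) : ℤ) := by
        push_cast
        linarith
      rw [Rule.goS h n a' K J w cs gs (Nat.succ d) (i + 1) S S0 a hda hs hi1]
      congr 1
      refine Rule.goS h n b K J w cs (d :: gs) 0 (i + 1) _ S0 a hdb ⟨?_, hs.far, hs.val⟩ ?_
      · rw [hs.eq, List.reverse_cons, ps_append, hi, ps, Finset.insert_eq, Finset.union_comm,
          Finset.union_assoc]
      · rw [List.reverse_cons, lst_append, hi]
        push_cast
        ring
    · rw [cond_true]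
      have hm' : m ≤ d + 1 := Nat.le_of_ble_eq_true hm
      have hfar : ∀ x ∈ S, x + m ≤ (i : ℤ) := by
        intro x hx
        have h5 : (m : ℤ) ≤ d + 1 := by exact_mod_cast hm'
        rw [hs.eq, Finset.mem_union] at hx
        rcases hx with hx | hx
        · have h6 := hs.far x hx
          have h7 : a ≤ lst a gs.reverse := by
            have : a ∈ ps a gs.reverse := by
              cases gs.reverse with
              | nil => simp [ps]
              | cons e es => simp [ps]
            exact mem_ps_le _ _ _ this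
          have h8 : (0 : ℤ) ≤ d := by positivity
          linarith
        · have h6 := mem_ps_le _ _ _ hx
          linarith
      have hX : lin M (.node a' b) i S = M S * (cst a' + lin M (rst (.node a' b)) 1 {0}) := by
        have h5 := h.lin_far (.node a' b) i S ∅ hfar (by simp)
        rw [Finset.union_empty] at h5
        rw [h5, h.lin_rst, cst]
      refine h.close _ (R := K * M S) (fun hR => ?_) (fun J' w' cs' hR => ?_) _ _ _ _ (h.st_val hs)
      · rw [hX, ← mul_assoc, hR, zero_mul]
      rw [addT_spec, lin_top, h.canon, hX]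
      rw [Rule.goS h n (rst (.node a' b)) (K * M S) J' w' cs' [] 0 1 {0} ∅ 0
        (dpt_rst _ _ hn) ⟨rfl, by simp, by rw [h.empty, mul_one, hR]⟩ rfl]
      have h3 : Int.mul (cst a') (Int.mul w' (q ^ J')) = cst a' * (w' * q ^ J') := rfl
      rw [h3]
      push_cast
      linear_combination -(cst a' : ℝ) * hR

theorem Rule.goT (h : Rule m p q M) (J n : ℕ) (P : MP) (hn : dpt P ≤ n + 1) :
    lin M (LP.goT m J n p q P) 0 ∅ = (q : ℝ) ^ J * lin M P 0 ∅ := by
  rw [LP.goT, addT_spec, lin, h.empty, h.lin_rst P 0,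
    h.goS n (rst P) ((q : ℝ) ^ J) J 1 [] [] 0 1 {0} ∅ 0 (dpt_rst _ _ hn) ⟨rfl, by simp, ?_⟩ rfl]
  · push_cast
    ring
  · rw [h.empty]
    simp

/-- **The criterion.** -/
theorem Rule.lin_neg_of (h : Rule m p q M) (hq : 0 < q) (J n : ℕ) {P : MP}
    (hn : dpt P ≤ n + 1) (hP : neg (LP.goT m J n p q P) = true) : lin M P 0 ∅ < 0 := by
  have h1 := neg_spec M h.empty _ hP 0
  rw [h.goT J n P hn] at h1
  have h2 : (0 : ℝ) < (q : ℝ) ^ J := by
    have : (0 : ℝ) < q := by exact_mod_cast hq
    positivity
  by_contra h3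
  push Not at h3
  have := mul_nonneg h2.le h3
  linarith

theorem dpt_of_dep : ∀ (n : ℕ) {P : MP}, dep n P = true → dpt P ≤ n
  | 0, P, h => by
    obtain ⟨c, rfl⟩ := dep_zero h
    exact le_rfl
  | n + 1, P, h => by
    obtain ⟨a, b, rfl, h1, h2⟩ := dep_succ h
    rw [dpt]
    have h3 := dpt_of_dep n h1
    have h4 := dpt_of_dep n h2
    omega

/-! ### The nonnegativity in parts -/

/-- Restriction to signs of the first variables. -/
def res : List Bool → MP → MP
  | [], P => P
  | _ :: _, .leaf c => .leaf c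
  | true :: l, .node a b => res l (add a b)
  | false :: l, .node a b => res l (sub a b)

theorem nn_split (n : ℕ) {P : MP} (hd : dep (n + 1) P = true)
    (h1 : nn n (res [true] P) = true) (h2 : nn n (res [false] P) = true) :
    nn (n + 1) P = true := by
  obtain ⟨a, b, rfl, -, -⟩ := dep_succ hd
  rw [nn, Bool.and_eq_true]
  exact ⟨h1, h2⟩

theorem dep_res (n : ℕ) (b : Bool) {P : MP} (hd : dep (n + 1) P = true) :
    dep n (res [b] P) = true := by
  obtain ⟨x, y, rfl, h1, h2⟩ := dep_succ hd
  cases b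
  · exact dep_sub n h1 h2
  · exact dep_add n h1 h2

theorem res_cons (n : ℕ) (b : Bool) (l : List Bool) {P : MP} (hd : dep (n + 1) P = true) :
    res (b :: l) P = res l (res [b] P) := by
  obtain ⟨x, y, rfl, h1, h2⟩ := dep_succ hd
  cases b <;> rfl

/-- Polynomials of a parity. -/
theorem ev_neg (B : ℕ) (τ : ℕ → ℝ) : ∀ (n : ℕ) (b : Bool) (x i : ℕ),
    ev (fun j => - τ j) (bld B n b x) i = cond b 1 (-1) * ev τ (bld B n b x) i
  | 0, true, x, i => by simp [bld, ev]
  | 0, false, x, i => by simp [bld, ev]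
  | n + 1, b, x, i => by
    simp only [bld, ev]
    rw [ev_neg B τ n b, ev_neg B τ n (!b)]
    cases b
    · simp only [Bool.not_false, cond_true, cond_false]
      ring
    · simp only [Bool.not_true, cond_true, cond_false]
      ring

/-- For even polynomials one sign may be fixed. -/
theorem nn_even {B n x : ℕ} (h : nn n (res [true] (bld B (n + 1) true x)) = true) {τ : ℕ → ℝ}
    (hτ : ∀ i, |τ i| ≤ 1) (i : ℕ) : 0 ≤ ev τ (bld B (n + 1) true x) i := by
  have ha := dep_bld B n true (x % 2 ^ (B * cnt n true))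
  have hb := dep_bld B n (!true) (x / 2 ^ (B * cnt n true))
  have h' : nn n (add (bld B n true (x % 2 ^ (B * cnt n true)))
      (bld B n (!true) (x / 2 ^ (B * cnt n true)))) = true := h
  have h1 := nn_spec hτ n (dep_add n ha hb) h' (i + 1)
  have h2 := nn_spec (τ := fun j => - τ j) (fun j => by rw [abs_neg]; exact hτ j) n
    (dep_add n ha hb) h' (i + 1)
  rw [ev_add τ n ha hb] at h1
  rw [ev_add _ n ha hb, ev_neg, ev_neg] at h2
  simp only [Bool.not_true, cond_true, cond_false, one_mul, neg_mul] at h1 h2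
  simp only [bld, ev, Bool.not_true]
  obtain ⟨h5, h6⟩ := abs_le.1 (hτ i)
  nlinarith [mul_nonneg (by linarith : 0 ≤ 1 + τ i) h1, mul_nonneg (by linarith : 0 ≤ 1 - τ i) h2]

open MeasureTheory ProbabilityTheory HC38bc51.HC

/-- Lower bounds for the probability of a sign change. -/
theorem chg_gt_cert {m : ℕ} {Q : Measure (ℤ → Bool)} (hQ : SignLaw m Q) (hm : 1 ≤ m) {p q : ℤ}
    (hp : 0 < p) (hq : 0 < q) (J B n x : ℕ)
    (hn : nn n (res [true] (bld B (n + 1) true x)) = true)
    (hN : neg (goT m J n p q (bld B (n + 1) true x)) = true) :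
    (1 - p / q) / 2 < chg Q :=
  chg_gt hQ hm hp hq (P := bld B (n + 1) true x) (fun _ hτ => nn_even hn hτ 0)
    fun _ h => h.lin_neg_of hq J n (dpt_of_dep _ (dep_bld _ _ _ _)) hN

end HC38bc51.LP
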